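import Pool.Agent.N594.CT.Stm3

/-!
# The degrees of six vertices without four independent ones

Project CT (helper594), part Y6 (helper415).
-/

set_option autoImplicit false

open Finset
open scoped Classical

namespace Pool.Agent.N415.CT.Y6

open Pool.Agent.N594.CT

section
variable {V : Type} (H : Finset V → Prop) (K : Fin 6 → V)

/-- the number of the vertices `K i` which do not form an edge with `u` and `v` -/
noncomputable def f (u v : V) : ℕ := (univ.filter fun i : Fin 6 => ¬ H (insert (K i) {u, v})).card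

theorem f_symm (u v : V) : f H K u v = f H K v u := by
  unfold f
  rw [Finset.pair_comm]

theorem f_self (hU : Unif 3 H) (v : V) : f H K v v = 6 := by
  unfold f
  rw [filter_true_of_mem]
  · simp
  · intro i _ h
    have h1 := hU _ h
    have h2 : (insert (K i) ({v, v} : Finset V)).card ≤ 2 := by
      rw [Finset.pair_eq_singleton]
      exact card_le_two
    omega

theorem f_pair {I : Finset (Fin 6 ⊕ Fin 3)} {R : Fin 3 → V} (hI : Ind 3 H (Sum.elim K R) I)
    {j j' : Fin 3} (hj : Sum.inr j ∈ I) (hj' : Sum.inr j' ∈ I) (hne : j ≠ j') :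
    I.toLeft.card ≤ f H K (R j) (R j') := by
  unfold f
  refine card_le_card fun i hi => ?_
  rw [mem_toLeft] at hi
  refine mem_filter.2 ⟨mem_univ _, ?_⟩
  have h1 := hI {Sum.inl i, Sum.inr j, Sum.inr j'} (by
    intro a ha
    simp only [mem_insert, mem_singleton] at ha
    rcases ha with rfl | rfl | rfl
    · exact hi
    · exact hj
    · exact hj') (by
    rw [card_insert_of_notMem (by simp), card_insert_of_notMem (by simpa using hne), card_singleton])
  rw [image_insert, image_insert, image_singleton] at h1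
  exact h1

theorem left_le {I : Finset (Fin 6 ⊕ Fin 3)} {R : Fin 3 → V} (hI : Ind 3 H (Sum.elim K R) I)
    (hJ : ∀ J : Finset (Fin 6), J.card = 4 → ∃ e ⊆ J, e.card = 3 ∧ H (e.image K)) :
    I.toLeft.card ≤ 3 := by
  by_contra hcon
  push Not at hcon
  obtain ⟨J, hJ1, hJ2⟩ := exists_subset_card_eq (Nat.succ_le_of_lt hcon)
  obtain ⟨e, he, hec, heH⟩ := hJ J hJ2
  refine hI (e.map Function.Embedding.inl) ?_ (by rw [card_map, hec]) ?_
  · intro a ha
    obtain ⟨i, hi, rfl⟩ := mem_map.1 ha
    exact mem_toLeft.1 (hJ1 (he hi))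
  · have h1 : (e.map Function.Embedding.inl).image (Sum.elim K R) = e.image K := by
      rw [map_eq_image, image_image]
      rfl
    rw [h1]
    exact heH

theorem claim (hW : S_W) (hC : Cls 3 2 5 H)
    (hJ : ∀ J : Finset (Fin 6), J.card = 4 → ∃ e ⊆ J, e.card = 3 ∧ H (e.image K)) (u v w : V) :
    (3 ≤ f H K u v ∨ 3 ≤ f H K v w ∨ 3 ≤ f H K u w) ∨
      (3 - 1 ≤ f H K u v ∧ 3 - 1 ≤ f H K v w ∧ 3 - 1 ≤ f H K u w) := by
  obtain ⟨I, hI, h5⟩ := hW 3 2 5 V H hC (Fin 6 ⊕ Fin 3) (Sum.elim K ![u, v, w]) (fun _ => 1) (by simp)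
  rw [sum_const, smul_eq_mul, mul_one, ← card_toLeft_add_card_toRight] at h5
  have h3 := left_le H K hI hJ
  have e0 : (![u, v, w] : Fin 3 → V) 0 = u := rfl
  have e1 : (![u, v, w] : Fin 3 → V) 1 = v := rfl
  have e2 : (![u, v, w] : Fin 3 → V) 2 = w := rfl
  have h01 : Sum.inr 0 ∈ I → Sum.inr 1 ∈ I → I.toLeft.card ≤ f H K u v := fun a b => by
    have h := f_pair H K hI a b (by decide)
    rwa [e0, e1] at h
  have h12 : Sum.inr 1 ∈ I → Sum.inr 2 ∈ I → I.toLeft.card ≤ f H K v w := fun a b => by
    have h := f_pair H K hI a b (by decide)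
    rwa [e1, e2] at h
  have h02 : Sum.inr 0 ∈ I → Sum.inr 2 ∈ I → I.toLeft.card ≤ f H K u w := fun a b => by
    have h := f_pair H K hI a b (by decide)
    rwa [e0, e2] at h
  have hR : I.toRight.card = (if (Sum.inr 0 : Fin 6 ⊕ Fin 3) ∈ I then 1 else 0) +
      (if (Sum.inr 1 : Fin 6 ⊕ Fin 3) ∈ I then 1 else 0) +
      (if (Sum.inr 2 : Fin 6 ⊕ Fin 3) ∈ I then 1 else 0) := by
    have h6 : I.toRight = univ.filter (fun j : Fin 3 => (Sum.inr j : Fin 6 ⊕ Fin 3) ∈ I) := by
      ext j
      simp
    rw [h6, card_filter, Fin.sum_univ_three]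
  by_cases a0 : (Sum.inr 0 : Fin 6 ⊕ Fin 3) ∈ I <;> by_cases a1 : (Sum.inr 1 : Fin 6 ⊕ Fin 3) ∈ I <;>
    by_cases a2 : (Sum.inr 2 : Fin 6 ⊕ Fin 3) ∈ I
  · right
    rw [if_pos a0, if_pos a1, if_pos a2] at hR
    have := h01 a0 a1
    have := h12 a1 a2
    have := h02 a0 a2
    omega
  · left
    rw [if_pos a0, if_pos a1, if_neg a2] at hR
    have := h01 a0 a1
    omega
  · left
    rw [if_pos a0, if_neg a1, if_pos a2] at hR
    have := h02 a0 a2
    omega
  · rw [if_pos a0, if_neg a1, if_neg a2] at hR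
    omega
  · left
    rw [if_neg a0, if_pos a1, if_pos a2] at hR
    have := h12 a1 a2
    omega
  · rw [if_neg a0, if_pos a1, if_neg a2] at hR
    omega
  · rw [if_neg a0, if_neg a1, if_pos a2] at hR
    omega
  · rw [if_neg a0, if_neg a1, if_neg a2] at hR
    omega

variable [Fintype V]

theorem card_eq (x : V) : (univ.filter fun y : Fin 2 → V => H (insert x (univ.image y))).card =
    ∑ u, ∑ v, if H (insert x {u, v}) then 1 else 0 := by
  rw [card_filter, ← Fintype.sum_prod_type' (f := fun u v => if H (insert x {u, v}) then 1 else 0)]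
  refine Fintype.sum_equiv (finTwoArrowEquiv V) _ _ ?_
  intro y
  have h1 : (univ.image y : Finset V) = {y 0, y 1} := by
    ext a
    simp only [mem_image, mem_univ, true_and, mem_insert, mem_singleton, Fin.exists_fin_two]
    constructor
    · rintro (h | h)
      · exact Or.inl h.symm
      · exact Or.inr h.symm
    · rintro (h | h)
      · exact Or.inl h.symm
      · exact Or.inr h.symm
  rw [h1]
  rfl

theorem sum_eq : ∑ i, (univ.filter fun y : Fin 2 → V => H (insert (K i) (univ.image y))).card +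
    ∑ u, ∑ v, f H K u v = 6 * Fintype.card V ^ 2 := by
  have h1 : ∑ i, (univ.filter fun y : Fin 2 → V => H (insert (K i) (univ.image y))).card =
      ∑ u, ∑ v, (univ.filter fun i : Fin 6 => H (insert (K i) {u, v})).card := by
    rw [sum_congr rfl fun i _ => card_eq H (K i), sum_comm]
    refine sum_congr rfl fun u _ => ?_
    rw [sum_comm]
    refine sum_congr rfl fun v _ => ?_
    rw [card_filter]
  rw [h1, ← sum_add_distrib]
  have h2 : ∀ u v : V, (univ.filter fun i : Fin 6 => H (insert (K i) {u, v})).card + f H K u v = 6 := by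
    intro u v
    unfold f
    rw [card_filter_add_card_filter_not]
    simp
  have h3 : ∀ u : V, (∑ v, (univ.filter fun i : Fin 6 => H (insert (K i) {u, v})).card) +
      ∑ v, f H K u v = 6 * Fintype.card V := by
    intro u
    rw [← sum_add_distrib, sum_congr rfl fun v _ => h2 u v, sum_const, card_univ, smul_eq_mul, mul_comm]
  rw [sum_congr rfl fun u _ => h3 u, sum_const, card_univ, smul_eq_mul]
  ring

end

theorem main (hW : S_W) (hWT : S_WT) : S_Y6 := by
  intro V _ _ H K hU hC hJ
  have h1 := hWT V (f H K) 3 (by norm_num) (f_symm H K) (fun v => by rw [f_self H K hU]; norm_num)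
    (claim H K hW hC hJ)
  have h2 := sum_eq H K
  have h3 : 2 * ∑ i, (univ.filter fun y : Fin 2 → V => H (insert (K i) (univ.image y))).card ≤
      9 * Fintype.card V ^ 2 := by omega
  have hn : (0 : ℝ) < (Fintype.card V : ℝ) ^ 2 := by
    have : 0 < Fintype.card V := Fintype.card_pos
    positivity
  unfold dg
  rw [← sum_div, div_le_iff₀ hn]
  have h4 : (2 : ℝ) * ∑ i, ((univ.filter fun y : Fin 2 → V => H (insert (K i) (univ.image y))).card : ℝ) ≤
      9 * (Fintype.card V : ℝ) ^ 2 := by exact_mod_cast h3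
  have h5 : kap 2 3 * (Fintype.card (Fin 6) : ℝ) = 9 / 2 := by
    unfold kap
    norm_num
  rw [h5]
  linarith

end Pool.Agent.N415.CT.Y6
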